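import Pool.Agent.H23.PackTree

namespace Pool.Agent.Results.MP_bde484_co.Counter

/-- `X` is a `d`-distance dominating set and a `p`-packing. -/
def IsDomPack {V : Type} (G : SimpleGraph V) (d p : ℕ) (X : Finset V) : Prop :=
  (∀ u, u ∉ X → ∃ x ∈ X, G.dist u x ≤ d) ∧ ∀ u ∈ X, ∀ v ∈ X, u ≠ v → p + 1 ≤ G.dist u v

/-- The `d`-distance `p`-packing domination number (infinite if there is no such set). -/
noncomputable def gammaDP {V : Type} (G : SimpleGraph V) (d p : ℕ) : ℕ∞ :=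
  ⨅ (X : Finset V) (_ : IsDomPack G d p X), (X.card : ℕ∞)

theorem result : ∃ (p d n m : ℕ) (T : SimpleGraph (Fin n)), 3 ≤ p ∧ p ≤ d ∧ T.IsTree ∧
    gammaDP T d p = m ∧ ((n : ℝ) - 2 * √n + d + 1) / d < m := by
  refine ⟨6, 6, 61, 9, H23.PackTree.G, by norm_num, le_rfl, H23.PackTree.tree, ?_, ?_⟩
  · apply le_antisymm
    · exact iInf₂_le_of_le H23.PackTree.X0 H23.PackTree.ex (le_of_eq (by rfl))
    · refine le_iInf₂ fun X hX => ?_
      exact_mod_cast H23.PackTree.lower X hX.1 hX.2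
  · have : (7 : ℝ) < √61 := by
      rw [Real.lt_sqrt (by norm_num)]; norm_num
    push_cast
    linarith

end Pool.Agent.Results.MP_bde484_co.Counter
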